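import Pool.Agent.K4H76.FL.Match

/-!
# Large induced subgraphs

The class of the multigraphs without a certain induced subgraph with 126 vertices of degree at least
three (bipartite with 63 and 63 vertices, without circuits with at most eleven edges, and with an
induced forest with 94 vertices) is closed under contractions, and its bridgeless members have
nowhere-zero 5-flows.
-/

set_option autoImplicit false
set_option linter.unusedSectionVars false

namespace Pool.Agent.K4H76.FL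

open Finset Pool.Agent.TH676.Z Pool.Agent.Y335.FL Pool.Agent.Y358.IN Pool.Agent.R129.Ball

section forest

variable {V E : Type} [Fintype V] [DecidableEq V] [Fintype E] [DecidableEq E]

/-- the proper edges inside `Z` -/
def ins (src dst : E → V) (Z : Finset V) : Finset E :=
  univ.filter (fun e => src e ≠ dst e ∧ src e ∈ Z ∧ dst e ∈ Z)

theorem mem_ins {src dst : E → V} {Z : Finset V} {e : E} :
    e ∈ ins src dst Z ↔ src e ≠ dst e ∧ src e ∈ Z ∧ dst e ∈ Z := by simp [ins]

/-- sets in which every nonempty subset has a vertex with at most one neighbour induce forests -/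
theorem forest_of {s d : E → V} (hP : NoPar s d) [DecidableRel (Adj s d)] :
    ∀ (n : ℕ) (Z : Finset V), Z.card = n → Z.Nonempty →
      (∀ Z' ⊆ Z, Z'.Nonempty → ∃ z ∈ Z', (Z'.filter (Adj s d z)).card ≤ 1) →
      (ins s d Z).card < Z.card := by
  intro n
  induction n with
  | zero =>
    intro Z hZ hne
    exact absurd (card_eq_zero.1 hZ) hne.ne_empty
  | succ n ih =>
    intro Z hZ hne h
    obtain ⟨z, hz, hz1⟩ := h Z (Subset.refl _) hne
    -- the edges at `z`
    have h1 : ((ins s d Z).filter (fun e => s e = z ∨ d e = z)).card ≤ 1 := by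
      rw [card_le_one]
      intro e he e' he'
      obtain ⟨he1, he2⟩ := mem_filter.1 he
      obtain ⟨he1', he2'⟩ := mem_filter.1 he'
      rw [mem_ins] at he1 he1'
      have key : ∀ e, s e ≠ d e ∧ s e ∈ Z ∧ d e ∈ Z → (s e = z ∨ d e = z) →
          ∃ y ∈ Z.filter (Adj s d z), z ≠ y ∧ Jn s d e z y := by
        intro e h3 h4
        rcases h4 with h4 | h4
        · exact ⟨d e, mem_filter.2 ⟨h3.2.2, fun h => h3.1 (h4.trans h), e, Or.inl ⟨h4, rfl⟩⟩,
            fun h => h3.1 (h4.trans h), Or.inl ⟨h4, rfl⟩⟩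
        · exact ⟨s e, mem_filter.2 ⟨h3.2.1, fun h => h3.1 (h4.trans h).symm, e,
            Or.inr ⟨rfl, h4⟩⟩, fun h => h3.1 (h4.trans h).symm, Or.inr ⟨rfl, h4⟩⟩
      obtain ⟨y, hy, hzy, hj⟩ := key e he1 he2
      obtain ⟨y', hy', _, hj'⟩ := key e' he1' he2'
      rw [card_le_one.1 hz1 y' hy' y hy] at hj'
      exact hP e e' z y hzy hj hj'
    have h2 : (ins s d Z).card ≤ (ins s d (Z.erase z)).card + 1 := by
      have h3 : ins s d Z ⊆ ins s d (Z.erase z) ∪
          (ins s d Z).filter (fun e => s e = z ∨ d e = z) := by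
        intro e he
        rw [mem_union]
        by_cases h4 : s e = z ∨ d e = z
        · exact Or.inr (mem_filter.2 ⟨he, h4⟩)
        · left
          push Not at h4
          rw [mem_ins] at he ⊢
          exact ⟨he.1, mem_erase.2 ⟨h4.1, he.2.1⟩, mem_erase.2 ⟨h4.2, he.2.2⟩⟩
      have h5 := (card_le_card h3).trans (card_union_le _ _)
      omega
    have h3 : (Z.erase z).card = n := by
      rw [card_erase_of_mem hz, hZ]
      rfl
    rcases (Z.erase z).eq_empty_or_nonempty with h4 | h4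
    · have h5 : ins s d Z = ∅ := by
        rw [eq_empty_iff_forall_notMem]
        intro e he
        rw [mem_ins] at he
        have h6 : ∀ x ∈ Z, x = z := by
          intro x hx
          by_contra hxz
          have : x ∈ Z.erase z := mem_erase.2 ⟨hxz, hx⟩
          rw [h4] at this
          exact notMem_empty _ this
        exact he.1 ((h6 _ he.2.1).trans (h6 _ he.2.2).symm)
      rw [h5, card_empty]
      exact card_pos.2 hne
    · have h5 := ih (Z.erase z) h3 h4 (fun Z' hZ' => h Z' (hZ'.trans (erase_subset _ _)))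
      omega

/-- sets with at most eleven elements -/
theorem few11 {V : Type} [DecidableEq V] (Ad : V → V → Prop) [DecidableRel Ad]
    (hs : ∀ a b, Ad a b → Ad b a) (hi : ∀ a, ¬ Ad a a) (hg : Girth Ad 12) (Z : Finset V)
    (hZ : Z.Nonempty) (h11 : Z.card ≤ 11) : ∃ z ∈ Z, (Z.filter (Ad z)).card ≤ 1 := by
  classical
  by_contra hmin
  push Not at hmin
  let G : SimpleGraph Z :=
    { Adj := fun a b => Ad a b
      symm := ⟨fun a b h => hs _ _ h⟩
      loopless := ⟨fun a h => hi _ h⟩ }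
  have : Nonempty Z := ⟨⟨hZ.choose, hZ.choose_spec⟩⟩
  have hdeg : ∀ v, 2 ≤ G.degree v := by
    intro v
    rw [← SimpleGraph.card_neighborFinset_eq_degree]
    refine le_trans (hmin v.1 v.2) (le_of_eq ?_)
    symm
    refine card_bij (fun a _ => a.1) ?_ ?_ ?_
    · intro a ha
      rw [SimpleGraph.mem_neighborFinset] at ha
      exact mem_filter.2 ⟨a.2, ha⟩
    · intro a _ b _ h
      exact Subtype.ext h
    · intro b hb
      obtain ⟨hb1, hb2⟩ := mem_filter.1 hb
      exact ⟨⟨b, hb1⟩, by rw [SimpleGraph.mem_neighborFinset]; exact hb2, rfl⟩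
  have h1 := ahl Z G hdeg (fun k hk w hw hA => hg k hk (fun i => (w i).1)
    (fun i j hij => hw (Subtype.ext hij)) (fun i => hA i))
  have h2 := G.sum_degrees_eq_twice_card_edges
  have h3 : 2 * Fintype.card Z ≤ 2 * G.edgeFinset.card := by
    rw [← h2]
    calc 2 * Fintype.card Z = ∑ _v : Z, 2 := by
          rw [sum_const, card_univ, smul_eq_mul, mul_comm]
      _ ≤ _ := sum_le_sum fun v _ => hdeg v
  have hn0 : 0 < Fintype.card Z := Fintype.card_pos
  have h4 : (1 : ℝ) ≤ 2 * (G.edgeFinset.card : ℝ) / Fintype.card Z - 1 := by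
    have h5 : (0 : ℝ) < Fintype.card Z := by exact_mod_cast hn0
    rw [le_sub_iff_add_le, le_div_iff₀ h5]
    have h6 : (2 : ℝ) * Fintype.card Z ≤ 2 * G.edgeFinset.card := by exact_mod_cast h3
    linarith
  have h5 : (12 : ℝ) ≤ Fintype.card Z := by
    refine le_trans ?_ h1
    calc (12 : ℝ) = 2 * ∑ _i ∈ range 6, (1 : ℝ) := by norm_num
      _ ≤ _ := mul_le_mul_of_nonneg_left (sum_le_sum fun i _ => one_le_pow₀ h4) (by norm_num)
  rw [Fintype.card_coe] at h5
  have h6 : 12 ≤ Z.card := by exact_mod_cast h5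
  omega

end forest

section levels

variable {V : Type} [Fintype V] [DecidableEq V] {G : SimpleGraph V}

/-- the lengths of short paths to neighbours differ by one -/
theorem adj_level (h12 : ∀ (w : V) (c : G.Walk w w), c.IsCycle → 12 ≤ c.length) {a v w : V}
    {p : G.Walk a v} {q : G.Walk a w} (hp : p.IsPath) (hq : q.IsPath) (h : G.Adj v w)
    (hl : p.length + q.length ≤ 10) :
    (p.length = q.length + 1 ∧ w = p.penultimate) ∨ q.length = p.length + 1 := by
  by_cases hv : v ∈ q.support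
  · right
    have h1 := q.length_takeUntil_le_length hv
    have e := Ord.uniq h12 hp (hq.takeUntil hv) (by omega)
    have h3 := q.length_dropUntil_le_length hv
    have e2 := Ord.uniq h12 (hq.dropUntil hv) (Ord.edge_path h) (by
      rw [SimpleGraph.Walk.length_cons, SimpleGraph.Walk.length_nil]
      omega)
    have h5 : (q.takeUntil v hv).length + (q.dropUntil v hv).length = q.length := by
      rw [← SimpleGraph.Walk.length_append, SimpleGraph.Walk.take_spec]
    rw [e2, ← e, SimpleGraph.Walk.length_cons, SimpleGraph.Walk.length_nil] at h5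
    omega
  · left
    have e := Ord.uniq h12 hp (hq.concat hv h.symm) (by
      rw [SimpleGraph.Walk.length_concat]
      omega)
    constructor
    · rw [e, SimpleGraph.Walk.length_concat]
    · rw [e, SimpleGraph.Walk.penultimate_concat]

/-- one side of the bipartite graph around an edge -/
noncomputable def Sd (G : SimpleGraph V) (x y : V) : Finset V :=
  (Ord.Bs G 0 x y ∪ Ord.Bs G 2 x y ∪ Ord.Bs G 4 x y) ∪
    (Ord.Bs G 1 y x ∪ Ord.Bs G 3 y x ∪ Ord.Bs G 5 y x)

theorem mem_Sd {x y v : V} (hxy : G.Adj x y) (h : v ∈ Sd G x y) :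
    ((∃ p : G.Walk x v, p.IsPath ∧ p.length ≤ 6 ∧ Even p.length) ∧
      ∃ q : G.Walk y v, q.IsPath ∧ q.length ≤ 5 ∧ Odd q.length) := by
  have key : ∀ {x y : V} {d : ℕ}, G.Adj x y → v ∈ Ord.Bs G d x y →
      (∃ p : G.Walk x v, p.IsPath ∧ p.length = d) ∧
        ∃ p : G.Walk y v, p.IsPath ∧ p.length = d + 1 := by
    intro x y d hxy hv
    obtain ⟨p, hp, hpl, hy⟩ := Ord.mem_Bs.1 hv
    exact ⟨⟨p, hp, hpl⟩, SimpleGraph.Walk.cons hxy.symm p,
      (SimpleGraph.Walk.cons_isPath_iff _ _).2 ⟨hp, hy⟩, by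
        rw [SimpleGraph.Walk.length_cons, hpl]⟩
  unfold Sd at h
  rw [mem_union, mem_union, mem_union, mem_union, mem_union] at h
  rcases h with ((h | h) | h) | ((h | h) | h)
  · obtain ⟨⟨p, hp, hpl⟩, q, hq, hql⟩ := key hxy h
    exact ⟨⟨p, hp, by omega, by rw [hpl]; decide⟩, q, hq, by omega, by rw [hql]; decide⟩
  · obtain ⟨⟨p, hp, hpl⟩, q, hq, hql⟩ := key hxy h
    exact ⟨⟨p, hp, by omega, by rw [hpl]; decide⟩, q, hq, by omega, by rw [hql]; decide⟩
  · obtain ⟨⟨p, hp, hpl⟩, q, hq, hql⟩ := key hxy h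
    exact ⟨⟨p, hp, by omega, by rw [hpl]; decide⟩, q, hq, by omega, by rw [hql]; decide⟩
  · obtain ⟨⟨p, hp, hpl⟩, q, hq, hql⟩ := key hxy.symm h
    exact ⟨⟨q, hq, by omega, by rw [hql]; decide⟩, p, hp, by omega, by rw [hpl]; decide⟩
  · obtain ⟨⟨p, hp, hpl⟩, q, hq, hql⟩ := key hxy.symm h
    exact ⟨⟨q, hq, by omega, by rw [hql]; decide⟩, p, hp, by omega, by rw [hpl]; decide⟩
  · obtain ⟨⟨p, hp, hpl⟩, q, hq, hql⟩ := key hxy.symm h
    exact ⟨⟨q, hq, by omega, by rw [hql]; decide⟩, p, hp, by omega, by rw [hpl]; decide⟩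

/-- the two sides are independent sets -/
theorem Sd_indep (h12 : ∀ (w : V) (c : G.Walk w w), c.IsCycle → 12 ≤ c.length) {x y v w : V}
    (hxy : G.Adj x y) (hv : v ∈ Sd G x y) (hw : w ∈ Sd G x y) : ¬ G.Adj v w := by
  intro h
  obtain ⟨-, p, hp, hpl, ⟨k, hk⟩⟩ := mem_Sd hxy hv
  obtain ⟨-, q, hq, hql, ⟨l, hl⟩⟩ := mem_Sd hxy hw
  rcases adj_level h12 hp hq h (by omega) with ⟨h1, _⟩ | h1
  · omega
  · omega

theorem Bs_disj (h12 : ∀ (w : V) (c : G.Walk w w), c.IsCycle → 12 ≤ c.length) {x y : V}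
    {i j : ℕ} (hij : i ≠ j) (h : i + j ≤ 11) : Disjoint (Ord.Bs G i x y) (Ord.Bs G j x y) := by
  rw [disjoint_left]
  intro v hv hv'
  obtain ⟨p, hp, hpl, _⟩ := Ord.mem_Bs.1 hv
  obtain ⟨q, hq, hql, _⟩ := Ord.mem_Bs.1 hv'
  apply hij
  rw [← hpl, ← hql, Ord.uniq h12 hp hq (by omega)]

theorem Bs_sub_Ds {x y : V} {d : ℕ} (hd : d ≤ 5) : Ord.Bs G d x y ⊆ Ord.Ds G x y := by
  intro v hv
  exact mem_biUnion.2 ⟨d, mem_range.2 (by omega), hv⟩

/-- the number of the vertices on a side -/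
theorem card_Sd (h12 : ∀ (w : V) (c : G.Walk w w), c.IsCycle → 12 ≤ c.length)
    (h3 : ∀ x y, G.Adj x y → ∃ a b c, G.Adj x a ∧ G.Adj x b ∧ G.Adj x c ∧ a ≠ b ∧ a ≠ c ∧ b ≠ c)
    {x y : V} (hxy : G.Adj x y) : 63 ≤ (Sd G x y).card := by
  have h0 := Ord.card_Bs h12 h3 hxy 0 (by norm_num)
  have h2 := Ord.card_Bs h12 h3 hxy 2 (by norm_num)
  have h4 := Ord.card_Bs h12 h3 hxy 4 (by norm_num)
  have h1 := Ord.card_Bs h12 h3 hxy.symm 1 (by norm_num)
  have h3' := Ord.card_Bs h12 h3 hxy.symm 3 (by norm_num)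
  have h5 := Ord.card_Bs h12 h3 hxy.symm 5 (by norm_num)
  have hdis := Ds_disj h12 hxy
  unfold Sd
  rw [card_union_of_disjoint, card_union_of_disjoint, card_union_of_disjoint,
    card_union_of_disjoint, card_union_of_disjoint]
  · rw [pow_zero] at h0
    norm_num at h2 h4 h1 h3' h5
    omega
  · exact Bs_disj h12 (by norm_num) (by norm_num)
  · exact disjoint_union_left.2 ⟨Bs_disj h12 (by norm_num) (by norm_num),
      Bs_disj h12 (by norm_num) (by norm_num)⟩
  · exact Bs_disj h12 (by norm_num) (by norm_num)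
  · exact disjoint_union_left.2 ⟨Bs_disj h12 (by norm_num) (by norm_num),
      Bs_disj h12 (by norm_num) (by norm_num)⟩
  · refine hdis.mono ?_ ?_
    · exact union_subset (union_subset (Bs_sub_Ds (by norm_num)) (Bs_sub_Ds (by norm_num)))
        (Bs_sub_Ds (by norm_num))
    · exact union_subset (union_subset (Bs_sub_Ds (by norm_num)) (Bs_sub_Ds (by norm_num)))
        (Bs_sub_Ds (by norm_num))

theorem Sd_disj (h12 : ∀ (w : V) (c : G.Walk w w), c.IsCycle → 12 ≤ c.length) {x y : V}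
    (hxy : G.Adj x y) : Disjoint (Sd G x y) (Sd G y x) := by
  rw [disjoint_left]
  intro v hv hv'
  obtain ⟨-, p, hp, hpl, ⟨k, hk⟩⟩ := mem_Sd hxy hv
  obtain ⟨⟨q, hq, hql, ⟨l, hl⟩⟩, -⟩ := mem_Sd hxy.symm hv'
  have e := Ord.uniq h12 hp hq (by omega)
  rw [e] at hk
  omega

/-- the ball of radius five around `x` -/
noncomputable def Y5 (G : SimpleGraph V) (x y : V) : Finset V :=
  Ord.Ds G x y ∪ (range 5).biUnion fun d => Ord.Bs G d y x

theorem Y5_sub {x y : V} : Y5 G x y ⊆ Sd G x y ∪ Sd G y x := by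
  intro v hv
  unfold Sd
  simp only [mem_union]
  rcases mem_union.1 hv with h | h
  · obtain ⟨d, hd, h⟩ := mem_biUnion.1 h
    have := mem_range.1 hd
    interval_cases d <;> tauto
  · obtain ⟨d, hd, h⟩ := mem_biUnion.1 h
    have := mem_range.1 hd
    interval_cases d <;> tauto

theorem card_Y5 (h12 : ∀ (w : V) (c : G.Walk w w), c.IsCycle → 12 ≤ c.length)
    (h3 : ∀ x y, G.Adj x y → ∃ a b c, G.Adj x a ∧ G.Adj x b ∧ G.Adj x c ∧ a ≠ b ∧ a ≠ c ∧ b ≠ c)
    {x y : V} (hxy : G.Adj x y) : 94 ≤ (Y5 G x y).card := by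
  classical
  unfold Y5
  rw [card_union_of_disjoint, card_biUnion]
  · have h1 := Ord.card_Ds h12 h3 hxy
    have h2 : ∑ d ∈ range 5, 2 ^ d ≤ ∑ d ∈ range 5, (Ord.Bs G d y x).card :=
      sum_le_sum fun d hd => Ord.card_Bs h12 h3 hxy.symm d (by
        have := mem_range.1 hd
        omega)
    have h4 : ∑ d ∈ range 5, 2 ^ d = 31 := by decide
    omega
  · intro i hi j hj hij
    have h1 := mem_range.1 hi
    have h2 := mem_range.1 hj
    exact Bs_disj h12 hij (by omega)
  · refine (Ds_disj h12 hxy).mono_right ?_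
    intro v hv
    obtain ⟨d, hd, hv⟩ := mem_biUnion.1 hv
    have := mem_range.1 hd
    exact mem_biUnion.2 ⟨d, mem_range.2 (by omega), hv⟩

theorem Y5_path {x y v : V} (hxy : G.Adj x y) (h : v ∈ Y5 G x y) :
    ∃ p : G.Walk x v, p.IsPath ∧ p.length ≤ 5 := by
  rcases mem_union.1 h with h | h
  · obtain ⟨d, hd, h⟩ := mem_biUnion.1 h
    obtain ⟨p, hp, hpl, _⟩ := Ord.mem_Bs.1 h
    have := mem_range.1 hd
    exact ⟨p, hp, by omega⟩
  · obtain ⟨d, hd, h⟩ := mem_biUnion.1 h
    obtain ⟨p, hp, hpl, hx⟩ := Ord.mem_Bs.1 h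
    have := mem_range.1 hd
    exact ⟨SimpleGraph.Walk.cons hxy p, (SimpleGraph.Walk.cons_isPath_iff _ _).2 ⟨hp, hx⟩, by
      rw [SimpleGraph.Walk.length_cons]
      omega⟩

/-- every nonempty set of vertices in a ball of radius five has a vertex with at most one neighbour
in the set -/
theorem few_ball (h12 : ∀ (w : V) (c : G.Walk w w), c.IsCycle → 12 ≤ c.length) {x : V}
    [DecidableRel G.Adj] (Z : Finset V) (hZ : Z.Nonempty)
    (hp : ∀ v ∈ Z, ∃ p : G.Walk x v, p.IsPath ∧ p.length ≤ 5) :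
    ∃ z ∈ Z, (Z.filter (G.Adj z)).card ≤ 1 := by
  classical
  -- a vertex with the longest path
  have hex : ∃ m, (∃ z ∈ Z, ∃ p : G.Walk x z, p.IsPath ∧ p.length ≤ 5 ∧ m + p.length = 5) := by
    obtain ⟨z, hz⟩ := hZ
    obtain ⟨p, hp1, hp2⟩ := hp z hz
    exact ⟨5 - p.length, z, hz, p, hp1, hp2, by omega⟩
  obtain ⟨z, hz, p, hp1, hp2, hp3⟩ := Nat.find_spec hex
  have hmax : ∀ y ∈ Z, ∀ q : G.Walk x y, q.IsPath → q.length ≤ 5 → q.length ≤ p.length := by
    intro y hy q hq hq5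
    by_contra hcon
    push Not at hcon
    exact Nat.find_min hex (m := 5 - q.length) (by omega) ⟨y, hy, q, hq, hq5, by omega⟩
  refine ⟨z, hz, ?_⟩
  rw [card_le_one]
  have key : ∀ y ∈ Z.filter (G.Adj z), y = p.penultimate := by
    intro y hy
    obtain ⟨hy1, hy2⟩ := mem_filter.1 hy
    obtain ⟨q, hq, hq5⟩ := hp y hy1
    rcases adj_level h12 hp1 hq hy2 (by omega) with ⟨_, h1⟩ | h1
    · exact h1
    · have := hmax y hy1 q hq hq5
      omega
  intro a ha b hb
  rw [key a ha, key b hb]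

end levels

section cls

variable {V E : Type} [Fintype V] [DecidableEq V] [Fintype E] [DecidableEq E]

/-- the induced subgraph -/
structure Big (src dst : E → V) (A B Y : Finset V) : Prop where
  cA : 63 ≤ A.card
  cB : 63 ≤ B.card
  disj : Disjoint A B
  deg : ∀ x ∈ A ∪ B, 3 ≤ dg src dst x
  iA : ∀ x ∈ A, ∀ y ∈ A, ¬ Adj src dst x y
  iB : ∀ x ∈ B, ∀ y ∈ B, ¬ Adj src dst x y
  sub : Y ⊆ A ∪ B
  cY : 94 ≤ Y.card
  forest : ∀ Z ⊆ A ∪ B, Z.Nonempty → (Z ⊆ Y ∨ Z.card ≤ 11) → (ins src dst Z).card < Z.card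

/-- the class -/
def ClX (src dst : E → V) : Prop := ¬ ∃ A B Y : Finset V, Big src dst A B Y

theorem ccX : CC (V := V) (E := E) ClX := by
  classical
  intro src dst e h hne
  rintro ⟨A, B, Y, hb⟩
  apply h
  set u := src e with hu
  set v := dst e with hv
  have hv0 : v ∉ A ∪ B := by
    intro hvA
    have h1 := hb.deg v hvA
    have h2 : dg (ctr u v ∘ src) (ctr u v ∘ dst) v = 0 := Ord.dg_ctr_v src dst hne
    omega
  obtain ⟨w, hw, hwd⟩ : ∃ w, (w = u ∨ w = v) ∧ (3 ≤ dg (ctr u v ∘ src) (ctr u v ∘ dst) u →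
      3 ≤ dg src dst w) := by
    have h3 : dg (ctr u v ∘ src) (ctr u v ∘ dst) u + 2 ≤ dg src dst u + dg src dst v :=
      Ord.dg_ctr_u src dst e hne
    by_cases h4 : 3 ≤ dg src dst u
    · exact ⟨u, Or.inl rfl, fun _ => h4⟩
    · exact ⟨v, Or.inr rfl, fun _ => by omega⟩
  have hcw : ctr u v w = u := by
    rcases hw with rfl | rfl
    · exact ctr_u _ _ hne
    · exact ctr_v _ _
  set r : V → V := fun x => if x = u then w else x with hr
  have hcr : ∀ x, x ≠ v → ctr u v (r x) = x := by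
    intro x hx
    rw [hr]
    by_cases hxu : x = u
    · simp only [hxu, if_true]
      exact hcw
    · simp only [hxu, if_false]
      exact ctr_of_ne hx
  have hinj : Set.InjOn r ((A ∪ B : Finset V) : Set V) := by
    intro x hx y hy hxy
    have h1 : x ≠ v := fun h => hv0 (h ▸ hx)
    have h2 : y ≠ v := fun h => hv0 (h ▸ hy)
    rw [← hcr x h1, hxy, hcr y h2]
  have hcrI : ∀ X ⊆ A ∪ B, ∀ z ∈ X.image r, ctr u v z ∈ X ∧ r (ctr u v z) = z := by
    intro X hX z hz
    obtain ⟨x, hx, rfl⟩ := mem_image.1 hz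
    have h1 : x ≠ v := fun h => hv0 (h ▸ hX hx)
    rw [hcr x h1]
    exact ⟨hx, rfl⟩
  have hcardI : ∀ X ⊆ A ∪ B, (X.image r).card = X.card := fun X hX =>
    card_image_of_injOn (hinj.mono (coe_subset.2 hX))
  have hAU : A ⊆ A ∪ B := subset_union_left
  have hBU : B ⊆ A ∪ B := subset_union_right
  have hadj : ∀ x ∈ A ∪ B, ∀ y ∈ A ∪ B, Adj src dst (r x) (r y) →
      Adj (ctr u v ∘ src) (ctr u v ∘ dst) x y := by
    intro x hx y hy h1
    have h2 : x ≠ v := fun h => hv0 (h ▸ hx)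
    have h3 : y ≠ v := fun h => hv0 (h ▸ hy)
    have h4 := adj_ctr (u := u) (v := v) h1 (by
      rw [hcr x h2, hcr y h3]
      intro h5
      exact h1.1 (by rw [h5]))
    rwa [hcr x h2, hcr y h3] at h4
  have himU : A.image r ∪ B.image r = (A ∪ B).image r := (image_union A B).symm
  refine ⟨A.image r, B.image r, Y.image r, ?_⟩
  constructor
  · rw [hcardI A hAU]
    exact hb.cA
  · rw [hcardI B hBU]
    exact hb.cB
  · rw [disjoint_left]
    intro z hz hz'
    exact disjoint_left.1 hb.disj (hcrI A hAU z hz).1 (hcrI B hBU z hz').1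
  · intro z hz
    rw [himU] at hz
    obtain ⟨x, hx, rfl⟩ := mem_image.1 hz
    have h1 := hb.deg x hx
    rw [hr]
    by_cases hxu : x = u
    · simp only [hxu, if_true]
      exact hwd (hxu ▸ h1)
    · simp only [hxu, if_false]
      exact h1.trans (Ord.dg_ctr_other src dst hxu)
  · intro x hx y hy h1
    obtain ⟨x', hx', rfl⟩ := mem_image.1 hx
    obtain ⟨y', hy', rfl⟩ := mem_image.1 hy
    exact hb.iA x' hx' y' hy' (hadj x' (hAU hx') y' (hAU hy') h1)
  · intro x hx y hy h1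
    obtain ⟨x', hx', rfl⟩ := mem_image.1 hx
    obtain ⟨y', hy', rfl⟩ := mem_image.1 hy
    exact hb.iB x' hx' y' hy' (hadj x' (hBU hx') y' (hBU hy') h1)
  · rw [himU]
    exact image_subset_image hb.sub
  · rw [hcardI Y hb.sub]
    exact hb.cY
  · intro Z hZ hZn hZ'
    rw [himU] at hZ
    set Z1 := Z.image (ctr u v) with hZ1
    have hsub : Z1 ⊆ A ∪ B := by
      intro z hz
      obtain ⟨y, hy, rfl⟩ := mem_image.1 hz
      exact (hcrI _ (Subset.refl _) y (hZ hy)).1
    have hcZ : Z1.card = Z.card := by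
      refine card_image_of_injOn ?_
      intro x hx y hy hxy
      rw [← (hcrI _ (Subset.refl _) x (hZ hx)).2, ← (hcrI _ (Subset.refl _) y (hZ hy)).2]
      exact congrArg r hxy
    have h1 := hb.forest Z1 hsub (hZn.image _) (by
      rcases hZ' with h | h
      · left
        intro z hz
        obtain ⟨y, hy, rfl⟩ := mem_image.1 hz
        exact (hcrI _ hb.sub y (h hy)).1
      · right
        rw [hcZ]
        exact h)
    rw [← hcZ]
    refine lt_of_le_of_lt (card_le_card ?_) h1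
    intro f hf
    rw [mem_ins] at hf ⊢
    obtain ⟨h2, h3, h4⟩ := hf
    refine ⟨?_, mem_image_of_mem _ h3, mem_image_of_mem _ h4⟩
    intro h5
    apply h2
    rw [← (hcrI _ (Subset.refl _) _ (hZ h3)).2, ← (hcrI _ (Subset.refl _) _ (hZ h4)).2]
    exact congrArg r h5

/-- **Main step.** -/
theorem flow_of_ClX (hc : St_contract) (src dst : E → V) (hcl : ClX src dst)
    (hbr : Br src dst ∅ ∅) : FlowOn src dst ∅ ∅ := by
  classical
  by_contra hn
  obtain ⟨s, d, hT, hM⟩ := exists_minC ccX src dst hcl hbr hn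
  have h3 := threeC hc hM
  have hgi := girthC hc hM
  have hP : NoPar s d := fun e e' x y hxy h h' => no_par hc hM hxy h h'
  by_cases hl : ∀ e, s e = d e
  · exact hM.nf (flow_of_loops hl)
  push Not at hl
  obtain ⟨e, he⟩ := hl
  let G : SimpleGraph V :=
    { Adj := Adj s d
      symm := ⟨fun a b h => GiAux.adj_symm h⟩
      loopless := ⟨fun a h => h.1 rfl⟩ }
  have hG : ∀ a b, G.Adj a b ↔ Adj s d a b := fun a b => Iff.rfl
  have h12 : ∀ (w : V) (c : G.Walk w w), c.IsCycle → 12 ≤ c.length :=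
    fun w c hc => Ord.cycle_len hgi G hG c hc
  have hxy : G.Adj (s e) (d e) := ⟨he, e, Or.inl ⟨rfl, rfl⟩⟩
  have h3' : ∀ x y, G.Adj x y → ∃ a b c, G.Adj x a ∧ G.Adj x b ∧ G.Adj x c ∧ a ≠ b ∧ a ≠ c ∧
      b ≠ c := h3
  refine hT ⟨Sd G (s e) (d e), Sd G (d e) (s e), Y5 G (s e) (d e), ?_⟩
  refine ⟨card_Sd h12 h3' hxy, card_Sd h12 h3' hxy.symm, Sd_disj h12 hxy, ?_,
    fun x hx y hy => Sd_indep h12 hxy hx hy, fun x hx y hy => Sd_indep h12 hxy.symm hx hy,
    Y5_sub, card_Y5 h12 h3' hxy, ?_⟩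
  · intro x hx
    obtain ⟨y, hy⟩ : ∃ y, G.Adj x y := by
      rcases mem_union.1 hx with h | h
      · obtain ⟨⟨p, _, _, _⟩, -⟩ := mem_Sd hxy h
        exact Ord.nbr hxy p
      · obtain ⟨⟨p, _, _, _⟩, -⟩ := mem_Sd hxy.symm h
        exact Ord.nbr hxy.symm p
    exact Ord.three_dg h3 hy
  · intro Z hZ hZn hZ'
    refine forest_of hP Z.card Z rfl hZn ?_
    intro Z' hZZ hZ'n
    rcases hZ' with h | h
    · exact few_ball h12 (x := s e) Z' hZ'n (fun v hv => Y5_path hxy (h (hZZ hv)))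
    · exact few11 (Adj s d) (fun a b h => GiAux.adj_symm h) (fun a h => h.1 rfl) hgi Z' hZ'n
        ((card_le_card hZZ).trans h)

end cls

end Pool.Agent.K4H76.FL
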