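import Pool.Agent.K4H76.FL.Sparse
import Pool.Agent.R129.Ball.Cls
import Pool.Agent.H168DD.TB
import Pool.Agent.Y335.FL.Surf
import Pool.Agent.TH676.Z.Split

/-!
# Matchings in graphs with girth at least twelve

A simple graph with girth at least twelve in which all vertices which are not isolated have degree at
least three has a matching with 63 edges, if it has an edge.
-/

set_option autoImplicit false
set_option linter.unusedSectionVars false

namespace Pool.Agent.K4H76.FL

open Finset Pool.Agent.TH676.Z Pool.Agent.Y335.FL Pool.Agent.Y358.IN Pool.Agent.R129.Ball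

section closed

variable {V : Type} [Fintype V] [DecidableEq V] {G : SimpleGraph V}

theorem walk_closed {A X : Finset V} (hcl : ∀ x ∈ X, ∀ y, G.Adj x y → y ∈ X ∨ y ∈ A) {x v : V}
    (p : G.Walk x v) (hx : x ∈ X) (hp : ∀ w ∈ p.support, w ∉ A) : v ∈ X := by
  induction p with
  | nil => exact hx
  | @cons x y v h q ih =>
    have hy : y ∈ (SimpleGraph.Walk.cons h q).support := by
      rw [SimpleGraph.Walk.support_cons]
      exact List.mem_cons_of_mem _ q.start_mem_support
    refine ih ((hcl x hx y h).resolve_right (hp y hy)) (fun w hw => hp w ?_)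
    rw [SimpleGraph.Walk.support_cons]
    exact List.mem_cons_of_mem _ hw

theorem Ds_sub {A X : Finset V} (hcl : ∀ x ∈ X, ∀ y, G.Adj x y → y ∈ X ∨ y ∈ A) {x y : V}
    (hx : x ∈ X) (hA : ∀ a ∈ A, a ∉ Ord.Ds G x y) : Ord.Ds G x y ⊆ X := by
  intro v hv
  obtain ⟨d, hd, hv⟩ := mem_biUnion.1 hv
  obtain ⟨p, hp, hpl, hyp⟩ := Ord.mem_Bs.1 hv
  have hd' := mem_range.1 hd
  refine walk_closed hcl p hx ?_
  intro w hw hwA
  refine hA w hwA (mem_biUnion.2 ⟨(p.takeUntil w hw).length, ?_, ?_⟩)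
  · have := p.length_takeUntil_le_length hw
    exact mem_range.2 (by omega)
  · exact Ord.mem_Bs.2 ⟨p.takeUntil w hw, hp.takeUntil hw, rfl,
      fun h => hyp (p.support_takeUntil_subset_support hw h)⟩

theorem Ds_disj (h12 : ∀ (w : V) (c : G.Walk w w), c.IsCycle → 12 ≤ c.length) {x y : V}
    (hxy : G.Adj x y) : Disjoint (Ord.Ds G x y) (Ord.Ds G y x) := by
  rw [disjoint_left]
  intro v hv hv'
  obtain ⟨d, hd, hv⟩ := mem_biUnion.1 hv
  obtain ⟨e, he, hv'⟩ := mem_biUnion.1 hv'
  obtain ⟨p, hp, hpl, hyp⟩ := Ord.mem_Bs.1 hv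
  obtain ⟨q, hq, hql, hxq⟩ := Ord.mem_Bs.1 hv'
  have h1 := mem_range.1 hd
  have h2 := mem_range.1 he
  have h4 := Ord.uniq h12 hp ((SimpleGraph.Walk.cons_isPath_iff hxy q).2 ⟨hq, hxq⟩) (by
    rw [SimpleGraph.Walk.length_cons]
    omega)
  apply hyp
  rw [h4, SimpleGraph.Walk.support_cons]
  exact List.mem_cons_of_mem _ q.start_mem_support

theorem notMem_Ds (x y : V) : y ∉ Ord.Ds G x y := by
  intro h
  obtain ⟨d, _, h⟩ := mem_biUnion.1 h
  obtain ⟨p, _, _, hy⟩ := Ord.mem_Bs.1 h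
  exact hy p.end_mem_support

/-- closed sets -/
theorem closed126 (h12 : ∀ (w : V) (c : G.Walk w w), c.IsCycle → 12 ≤ c.length)
    (h3 : ∀ x y, G.Adj x y → ∃ a b c, G.Adj x a ∧ G.Adj x b ∧ G.Adj x c ∧ a ≠ b ∧ a ≠ c ∧ b ≠ c)
    {X : Finset V} (hcl : ∀ x ∈ X, ∀ y, G.Adj x y → y ∈ X)
    (hne : ∀ x ∈ X, ∃ y, G.Adj x y) (hX : X.Nonempty) : 126 ≤ X.card := by
  obtain ⟨x, hx⟩ := hX
  obtain ⟨y, hxy⟩ := hne x hx
  have hy := hcl x hx y hxy
  have hcl' : ∀ x ∈ X, ∀ y, G.Adj x y → y ∈ X ∨ y ∈ (∅ : Finset V) :=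
    fun x hx y h => Or.inl (hcl x hx y h)
  have h1 : Ord.Ds G x y ⊆ X := Ds_sub hcl' hx (fun a ha => absurd ha (notMem_empty a))
  have h2 : Ord.Ds G y x ⊆ X := Ds_sub hcl' hy (fun a ha => absurd ha (notMem_empty a))
  have h4 := card_le_card (union_subset h1 h2)
  rw [card_union_of_disjoint (Ds_disj h12 hxy)] at h4
  have h5 := Ord.card_Ds h12 h3 hxy
  have h6 := Ord.card_Ds h12 h3 hxy.symm
  omega

theorem closed64 (h12 : ∀ (w : V) (c : G.Walk w w), c.IsCycle → 12 ≤ c.length)
    (h3 : ∀ x y, G.Adj x y → ∃ a b c, G.Adj x a ∧ G.Adj x b ∧ G.Adj x c ∧ a ≠ b ∧ a ≠ c ∧ b ≠ c)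
    {X : Finset V} {a : V} (hcl : ∀ x ∈ X, ∀ y, G.Adj x y → y ∈ X ∨ y ∈ ({a} : Finset V))
    (hne : ∀ x ∈ X, ∃ y, G.Adj x y) (hX : X.Nonempty) : 64 ≤ X.card := by
  obtain ⟨x, hx⟩ := hX
  obtain ⟨z, hxz⟩ := hne x hx
  obtain ⟨y, hxy, hya⟩ : ∃ y, G.Adj x y ∧ y ≠ a := by
    obtain ⟨b, c, d, hb, hc, hd, hbc, hbd, hcd⟩ := h3 x z hxz
    by_cases h : b = a
    · exact ⟨c, hc, fun h' => hbc (h.trans h'.symm)⟩
    · exact ⟨b, hb, h⟩
  have hy : y ∈ X := (hcl x hx y hxy).resolve_right (fun h => hya (mem_singleton.1 h))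
  have key : ∀ x y : V, x ∈ X → y ∈ X → G.Adj x y → a ∉ Ord.Ds G x y → 64 ≤ X.card := by
    intro x y hx hy hxy ha
    have h1 : Ord.Ds G x y ⊆ X := Ds_sub hcl hx (fun b hb => by
      rw [mem_singleton.1 hb]
      exact ha)
    have h2 : insert y (Ord.Ds G x y) ⊆ X := insert_subset hy h1
    have h3' := card_le_card h2
    rw [card_insert_of_notMem (notMem_Ds x y)] at h3'
    have h5 := Ord.card_Ds h12 h3 hxy
    omega
  by_cases ha : a ∈ Ord.Ds G x y
  · exact key y x hy hx hxy.symm (disjoint_left.1 (Ds_disj h12 hxy) ha)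
  · exact key x y hx hy hxy ha

end closed

section cnt

variable {V E : Type} [Fintype V] [DecidableEq V] [Fintype E] [DecidableEq E]

/-- the handshaking lemma for the edges outside `A` -/
theorem handshake {s d : E → V} (hP : NoPar s d) (A : Finset V) [DecidableRel (Adj s d)] :
    2 * (ES s d A).card ≤ ∑ v ∈ univ \ A, ((univ \ A).filter (Adj s d v)).card := by
  have h1 : 2 * (ES s d A).card ≤
      ∑ e ∈ ES s d A, ((univ \ A).filter (fun v => s e = v ∨ d e = v)).card := by
    rw [mul_comm, ← smul_eq_mul]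
    refine card_nsmul_le_sum _ _ _ fun e he => ?_
    unfold ES at he
    obtain ⟨_, h1, h2, h3⟩ := mem_filter.1 he
    have h4 : ({s e, d e} : Finset V) ⊆ (univ \ A).filter (fun v => s e = v ∨ d e = v) := by
      intro v hv
      rw [mem_insert, mem_singleton] at hv
      rcases hv with rfl | rfl
      · exact mem_filter.2 ⟨mem_sdiff.2 ⟨mem_univ _, h2⟩, Or.inl rfl⟩
      · exact mem_filter.2 ⟨mem_sdiff.2 ⟨mem_univ _, h3⟩, Or.inr rfl⟩
    have h5 := card_le_card h4
    rwa [card_pair h1] at h5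
  refine h1.trans ?_
  have h2 : ∑ e ∈ ES s d A, ((univ \ A).filter (fun v => s e = v ∨ d e = v)).card =
      ∑ v ∈ univ \ A, ((ES s d A).filter (fun e => s e = v ∨ d e = v)).card := by
    simp only [card_filter]
    exact sum_comm
  rw [h2]
  refine sum_le_sum fun v _ => ?_
  refine card_le_card_of_injOn (fun e => if s e = v then d e else s e) ?_ ?_
  · intro e he
    obtain ⟨he1, he2⟩ := mem_filter.1 (mem_coe.1 he)
    unfold ES at he1
    obtain ⟨_, h1, h2, h3⟩ := mem_filter.1 he1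
    refine mem_coe.2 (mem_filter.2 ⟨?_, ?_⟩)
    · by_cases h4 : s e = v
      · simp only [h4, if_true]
        exact mem_sdiff.2 ⟨mem_univ _, h3⟩
      · simp only [h4, if_false]
        exact mem_sdiff.2 ⟨mem_univ _, h2⟩
    · by_cases h4 : s e = v
      · simp only [h4, if_true]
        exact ⟨fun h => h1 (h4.trans h), e, Or.inl ⟨h4, rfl⟩⟩
      · simp only [h4, if_false]
        have h5 : d e = v := he2.resolve_left h4
        exact ⟨fun h => h4 h.symm, e, Or.inr ⟨rfl, h5⟩⟩
  · intro e he e' he' hee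
    obtain ⟨he1, he2⟩ := mem_filter.1 (mem_coe.1 he)
    obtain ⟨he1', he2'⟩ := mem_filter.1 (mem_coe.1 he')
    unfold ES at he1 he1'
    obtain ⟨_, h1, _, _⟩ := mem_filter.1 he1
    obtain ⟨_, h1', _, _⟩ := mem_filter.1 he1'
    simp only at hee
    by_cases h4 : s e = v <;> by_cases h4' : s e' = v
    · rw [if_pos h4, if_pos h4'] at hee
      exact hP e e' v (d e) (fun h => h1 (h4.trans h)) (Or.inl ⟨h4, rfl⟩)
        (Or.inl ⟨h4', hee.symm⟩)
    · rw [if_pos h4, if_neg h4'] at hee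
      have h5 : d e' = v := he2'.resolve_left h4'
      exact hP e e' v (d e) (fun h => h1 (h4.trans h)) (Or.inl ⟨h4, rfl⟩)
        (Or.inr ⟨hee.symm, h5⟩)
    · rw [if_neg h4, if_pos h4'] at hee
      have h5 : d e = v := he2.resolve_left h4
      exact hP e e' v (s e) (fun h => h4 h.symm) (Or.inr ⟨rfl, h5⟩)
        (Or.inl ⟨h4', hee.symm⟩)
    · rw [if_neg h4, if_neg h4'] at hee
      have h5 : d e = v := he2.resolve_left h4
      have h5' : d e' = v := he2'.resolve_left h4'
      exact hP e e' v (s e) (fun h => h4 h.symm) (Or.inr ⟨rfl, h5⟩)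
        (Or.inr ⟨hee.symm, h5'⟩)

/-- the inequality between the number of the vertices in `A` and the number of the edges outside
`A` -/
theorem num_a {a m D : ℕ} (h1 : 63 * D ≤ a * (m + D)) (h2 : 189 ≤ m + D) (ha : a ≤ 62) :
    3 * (63 - a) ≤ m := by
  have h3 : (63 - a) * (m + D) ≤ 63 * m := by
    have h4 : (63 - a) * (m + D) + a * (m + D) = 63 * m + 63 * D := by
      rw [← add_mul, Nat.sub_add_cancel (by omega)]
      ring
    omega
  have h5 : (63 - a) * 189 ≤ 63 * m := (Nat.mul_le_mul_left _ h2).trans h3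
  omega

/-- **the main inequality**, by contradiction: closed families -/
theorem family {s d : E → V} (hP : NoPar s d) (hg : Girth (Adj s d) 12) (h3 : Three (Adj s d))
    (hE : Edge62') (G : SimpleGraph V) (hG : ∀ a b, G.Adj a b ↔ Adj s d a b)
    {e0 : E} (he0 : s e0 ≠ d e0) (A : Finset V) (F : Finset (Finset V)) (hA : A ⊆ Ni G)
    (hodd : ∀ O ∈ F, Odd O.card) (hdis : ∀ O ∈ F, ∀ O' ∈ F, O ≠ O' → Disjoint O O')
    (hsub : ∀ O ∈ F, O ⊆ Ni G \ A)
    (hcl : ∀ O ∈ F, ∀ x ∈ O, ∀ y, G.Adj x y → y ∈ O ∨ y ∈ A) (h126 : 126 ≤ (Ni G).card) :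
    F.card ≤ A.card + ((Ni G).card - 126) := by
  classical
  by_contra hcon
  push Not at hcon
  have h12 : ∀ (w : V) (c : G.Walk w w), c.IsCycle → 12 ≤ c.length :=
    fun w c hc => Ord.cycle_len hg G hG c hc
  have h3' : ∀ x y, G.Adj x y → ∃ a b c, G.Adj x a ∧ G.Adj x b ∧ G.Adj x c ∧ a ≠ b ∧ a ≠ c ∧
      b ≠ c := by
    intro x y h
    obtain ⟨a, b, c, ha, hb, hc, h⟩ := h3 x y ((hG x y).1 h)
    exact ⟨a, b, c, (hG _ _).2 ha, (hG _ _).2 hb, (hG _ _).2 hc, h⟩
  have hni : ∀ x ∈ Ni G, ∃ y, G.Adj x y := by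
    intro x hx
    unfold Ni at hx
    exact (mem_filter.1 hx).2
  have hOne : ∀ O ∈ F, O.Nonempty := by
    intro O hO
    obtain ⟨k, hk⟩ := hodd O hO
    exact card_pos.1 (by omega)
  set U : Finset V := F.biUnion (fun O => O) with hU
  have hUsub : U ⊆ Ni G \ A := biUnion_subset.2 fun O hO => hsub O hO
  have hUcard : U.card = ∑ O ∈ F, O.card := by
    rw [hU, card_biUnion]
    intro O hO O' hO' hne
    exact hdis O hO O' hO' hne
  set R : Finset V := (Ni G \ A) \ U with hR
  have hn : (Ni G).card = A.card + U.card + R.card := by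
    have h1 : R.card + U.card = (Ni G \ A).card := card_sdiff_add_card_eq_card hUsub
    have h2 : (Ni G \ A).card + A.card = (Ni G).card := card_sdiff_add_card_eq_card hA
    omega
  have hlow : ∀ k, (∀ O ∈ F, k ≤ O.card) → k * F.card ≤ U.card := by
    intro k hk
    rw [hUcard, mul_comm, ← smul_eq_mul]
    exact card_nsmul_le_sum _ _ _ hk
  rcases Nat.lt_or_ge A.card 2 with ha | ha
  · -- small `A`
    rcases Nat.lt_or_ge A.card 1 with ha0 | ha1
    · have hA0 : A = ∅ := card_eq_zero.1 (by omega)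
      have h1 := hlow 127 (fun O hO => by
        have h2 := closed126 h12 h3' (X := O) (fun x hx y h => by
          have := hcl O hO x hx y h
          rw [hA0] at this
          exact this.resolve_right (notMem_empty _)) (fun x hx =>
            hni x (mem_sdiff.1 (hsub O hO hx)).1) (hOne O hO)
        obtain ⟨k, hk⟩ := hodd O hO
        omega)
      omega
    · obtain ⟨a, haA⟩ := card_eq_one.1 (show A.card = 1 by omega)
      have h1 := hlow 64 (fun O hO => closed64 h12 h3' (X := O) (a := a) (fun x hx y h => by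
          have := hcl O hO x hx y h
          rwa [haA] at this) (fun x hx =>
            hni x (mem_sdiff.1 (hsub O hO hx)).1) (hOne O hO))
      omega
  · -- large `A`
    have hsum1 : ∑ O ∈ F, O.card = ∑ O ∈ F, (O.card - 1) + F.card := by
      have h1 : ∑ O ∈ F, O.card = ∑ O ∈ F, ((O.card - 1) + 1) :=
        sum_congr rfl fun O hO => by
          have := card_pos.2 (hOne O hO)
          omega
      rw [h1, sum_add_distrib]
      simp
    have hkey : 2 * A.card + ∑ O ∈ F, (O.card - 1) + R.card ≤ 125 := by omega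
    have hOle : ∀ O ∈ F, O.card ≤ 121 := by
      intro O hO
      have h1 : O.card - 1 ≤ ∑ O ∈ F, (O.card - 1) :=
        single_le_sum (f := fun O : Finset V => O.card - 1) (fun _ _ => Nat.zero_le _) hO
      obtain ⟨k, hk⟩ := hodd O hO
      omega
    have hsO : ∀ O ∈ F, DD (Adj s d) O ≤ 3 * (O.card - 1) := by
      intro O hO
      have h1 := sparse (Adj s d) (fun a b h => GiAux.adj_symm h) (fun a h => h.1 rfl) hg O.card O
        rfl (hOne O hO) (hOle O hO)
      omega
    have hsR : DD (Adj s d) R ≤ 3 * R.card := by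
      rcases R.eq_empty_or_nonempty with h0 | h0
      · rw [h0]
        exact Nat.zero_le _
      · have h1 := sparse (Adj s d) (fun a b h => GiAux.adj_symm h) (fun a h => h.1 rfl) hg R.card R
          rfl h0 (by omega)
        omega
    -- the edges outside `A`
    have h4 := handshake hP A
    have h5 : ∑ v ∈ univ \ A, ((univ \ A).filter (Adj s d v)).card ≤
        ∑ O ∈ F, DD (Adj s d) O + DD (Adj s d) R := by
      have h6 : ∑ v ∈ univ \ A, ((univ \ A).filter (Adj s d v)).card =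
          ∑ v ∈ Ni G \ A, ((univ \ A).filter (Adj s d v)).card := by
        symm
        refine sum_subset (sdiff_subset_sdiff (subset_univ _) (Subset.refl _)) ?_
        intro v hv hv'
        rw [card_eq_zero, eq_empty_iff_forall_notMem]
        intro y hy
        apply hv'
        refine mem_sdiff.2 ⟨?_, (mem_sdiff.1 hv).2⟩
        unfold Ni
        exact mem_filter.2 ⟨mem_univ _, y, (hG _ _).2 (mem_filter.1 hy).2⟩
      rw [h6, ← sdiff_union_of_subset hUsub, sum_union sdiff_disjoint, add_comm]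
      refine Nat.add_le_add ?_ ?_
      · rw [hU, sum_biUnion (fun O hO O' hO' hne => hdis O hO O' hO' hne)]
        refine sum_le_sum fun O hO => ?_
        unfold DD
        refine sum_le_sum fun v hv => card_le_card ?_
        intro y hy
        obtain ⟨h7, h8⟩ := mem_filter.1 hy
        exact mem_filter.2 ⟨(hcl O hO v hv y ((hG _ _).2 h8)).resolve_right (mem_sdiff.1 h7).2, h8⟩
      · unfold DD
        refine sum_le_sum fun v hv => card_le_card ?_
        intro y hy
        obtain ⟨h7, h8⟩ := mem_filter.1 hy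
        refine mem_filter.2 ⟨?_, h8⟩
        rw [hR, mem_sdiff, mem_sdiff]
        refine ⟨⟨?_, (mem_sdiff.1 h7).2⟩, ?_⟩
        · unfold Ni
          exact mem_filter.2 ⟨mem_univ _, v, (hG _ _).2 (GiAux.adj_symm h8)⟩
        · intro hyU
          rw [hU, mem_biUnion] at hyU
          obtain ⟨O, hO, hyO⟩ := hyU
          obtain ⟨h9, h10⟩ := mem_sdiff.1 hv
          rcases hcl O hO y hyO v ((hG _ _).2 (GiAux.adj_symm h8)) with h11 | h11
          · exact h10 (mem_biUnion.2 ⟨O, hO, h11⟩)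
          · exact (mem_sdiff.1 h9).2 h11
    have h6 : ∑ O ∈ F, DD (Adj s d) O ≤ 3 * ∑ O ∈ F, (O.card - 1) := by
      rw [mul_sum]
      exact sum_le_sum hsO
    obtain ⟨h7, h8, -⟩ := Surfx.common hE hg h3 hP he0 A (by omega)
    have h9 := num_a h7 h8 (by omega)
    omega

end cnt

end Pool.Agent.K4H76.FL
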