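import Pool.Agent.K4H76.FL.Match

/-!
# Disjoint paths which join vertices of degree at least three

The class of the multigraphs without 63 disjoint connected sets of vertices with at least two
vertices of degree at least three in each is closed under contractions, and its bridgeless members
have nowhere-zero 5-flows.
-/

set_option autoImplicit false
set_option linter.unusedSectionVars false

namespace Pool.Agent.K4H76.FL

open Finset Pool.Agent.TH676.Z Pool.Agent.Y335.FL Pool.Agent.Y358.IN Pool.Agent.R129.Ball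

variable {V E : Type} [Fintype V] [DecidableEq V] [Fintype E] [DecidableEq E]

/-- the set `A` is connected: an edge leaves every nonempty proper subset inside `A` -/
def Cn (src dst : E → V) (A : Finset V) : Prop :=
  ∀ P ⊆ A, P.Nonempty → P ≠ A → ∃ e, (src e ∈ P ∧ dst e ∈ A \ P) ∨ (dst e ∈ P ∧ src e ∈ A \ P)

/-- the class -/
def ClT (src dst : E → V) : Prop := ∀ F : Finset (Finset V),
  (∀ A ∈ F, Cn src dst A ∧ 2 ≤ (A.filter (fun x => 3 ≤ dg src dst x)).card) →
  (∀ A ∈ F, ∀ B ∈ F, A ≠ B → Disjoint A B) → F.card ≤ 62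

/-- the preimage under the contraction -/
def pre (u v : V) (A : Finset V) : Finset V := univ.filter (fun x => ctr u v x ∈ A)

theorem mem_pre {u v x : V} {A : Finset V} : x ∈ pre u v A ↔ ctr u v x ∈ A := by
  simp [pre]

theorem cn_pre {src dst : E → V} {e : E} (hne : src e ≠ dst e) {A : Finset V}
    (h : Cn (ctr (src e) (dst e) ∘ src) (ctr (src e) (dst e) ∘ dst) A) (hv : dst e ∉ A) :
    Cn src dst (pre (src e) (dst e) A) := by
  intro P hP hPn hPA
  set u := src e with hu
  set v := dst e with hv'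
  have hcu : ctr u v u = u := ctr_u _ _ hne
  have hcv : ctr u v v = u := ctr_v _ _
  by_cases hsame : (u ∈ P ↔ v ∈ P) ∨ u ∉ A
  · -- the image of `P`
    have hin : ∀ x, x ∈ pre u v A → ctr u v x ∈ P.image (ctr u v) → x ∈ P := by
      intro x hx hxP
      obtain ⟨y, hy, hyx⟩ := mem_image.1 hxP
      by_cases h1 : x = v
      · rw [h1, hcv] at hyx
        rw [h1] at hx ⊢
        have h2 : ctr u v v ∈ A := mem_pre.1 hx
        rw [hcv] at h2
        rcases hsame with hs | hs
        · by_cases h3 : y = v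
          · rw [← h3]; exact hy
          · rw [ctr_of_ne h3] at hyx
            rw [hyx] at hy
            exact hs.1 hy
        · exact absurd h2 hs
      · rw [ctr_of_ne h1] at hyx
        by_cases h3 : y = v
        · rw [h3, hcv] at hyx
          rw [h3] at hy
          have h4 : u ∈ A := by
            have := mem_pre.1 (hP hy)
            rwa [hcv] at this
          rcases hsame with hs | hs
          · rw [← hyx]
            exact hs.2 hy
          · exact absurd h4 hs
        · rw [ctr_of_ne h3] at hyx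
          rw [← hyx]; exact hy
    obtain ⟨f, hf⟩ := h (P.image (ctr u v)) (by
      intro y hy
      obtain ⟨x, hx, rfl⟩ := mem_image.1 hy
      exact mem_pre.1 (hP hx)) (hPn.image _) (by
      intro heq
      apply hPA
      refine Subset.antisymm hP (fun x hx => hin x hx ?_)
      rw [heq]
      exact mem_pre.1 hx)
    refine ⟨f, ?_⟩
    have key : ∀ x y : V, ctr u v x ∈ P.image (ctr u v) → ctr u v y ∈ A \ P.image (ctr u v) →
        x ∈ P ∧ y ∈ pre u v A \ P := by
      intro x y hx hy
      obtain ⟨hy1, hy2⟩ := mem_sdiff.1 hy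
      have hxA : x ∈ pre u v A := by
        obtain ⟨z, hz, hzx⟩ := mem_image.1 hx
        rw [mem_pre, ← hzx]
        exact mem_pre.1 (hP hz)
      refine ⟨hin x hxA hx, mem_sdiff.2 ⟨mem_pre.2 hy1, fun h => hy2 (mem_image_of_mem _ h)⟩⟩
    rcases hf with ⟨h1, h2⟩ | ⟨h1, h2⟩
    · exact Or.inl (key _ _ h1 h2)
    · exact Or.inr (key _ _ h1 h2)
  · push Not at hsame
    obtain ⟨hs, huA⟩ := hsame
    refine ⟨e, ?_⟩
    have hupre : u ∈ pre u v A := by rw [mem_pre, hcu]; exact huA
    have hvpre : v ∈ pre u v A := by rw [mem_pre, hcv]; exact huA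
    by_cases huP : u ∈ P
    · left
      refine ⟨huP, mem_sdiff.2 ⟨hvpre, fun hvP => ?_⟩⟩
      rcases hs with ⟨_, h1⟩ | ⟨h1, _⟩
      · exact h1 hvP
      · exact h1 huP
    · right
      refine ⟨?_, mem_sdiff.2 ⟨hupre, huP⟩⟩
      rcases hs with ⟨h1, _⟩ | ⟨_, h1⟩
      · exact absurd h1 huP
      · exact h1

theorem ccT : CC (V := V) (E := E) ClT := by
  classical
  intro src dst e h hne F hF hdis
  set u := src e with hu
  set v := dst e with hv
  have hvA : ∀ A ∈ F, v ∉ A := by
    intro A hA hvA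
    obtain ⟨h1, h2⟩ := hF A hA
    have h3 : ({v} : Finset V) ≠ A := by
      rintro rfl
      have h4 := card_le_card (filter_subset (fun x => 3 ≤ dg (ctr u v ∘ src) (ctr u v ∘ dst) x)
        ({v} : Finset V))
      rw [card_singleton] at h4
      omega
    obtain ⟨f, hf⟩ := h1 {v} (singleton_subset_iff.2 hvA) (singleton_nonempty v) h3
    have h5 : ∀ y : V, ctr u v y ≠ v := by
      intro y hy
      unfold ctr at hy
      split_ifs at hy with h
      · exact hne hy
      · exact h hy
    rcases hf with ⟨h6, _⟩ | ⟨h6, _⟩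
    · exact h5 _ (mem_singleton.1 h6)
    · exact h5 _ (mem_singleton.1 h6)
  have hinj : Set.InjOn (pre u v) (F : Set (Finset V)) := by
    intro A hA B hB hAB
    have key : ∀ A B : Finset V, A ∈ F → pre u v A = pre u v B → A ⊆ B := by
      intro A B hA hAB x hx
      have h1 : x ≠ v := fun h => hvA A hA (h ▸ hx)
      have h2 : x ∈ pre u v A := by rw [mem_pre, ctr_of_ne h1]; exact hx
      rw [hAB, mem_pre, ctr_of_ne h1] at h2
      exact h2
    exact Subset.antisymm (key A B hA hAB) (key B A hB hAB.symm)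
  rw [← card_image_of_injOn hinj]
  refine h (F.image (pre u v)) ?_ ?_
  · intro A' hA'
    obtain ⟨A, hA, rfl⟩ := mem_image.1 hA'
    obtain ⟨h1, h2⟩ := hF A hA
    refine ⟨cn_pre hne h1 (hvA A hA), h2.trans ?_⟩
    -- a vertex of degree at least three for the new vertex
    obtain ⟨w, hw, hwd⟩ : ∃ w, (w = u ∨ w = v) ∧ (3 ≤ dg (ctr u v ∘ src) (ctr u v ∘ dst) u →
        3 ≤ dg src dst w) := by
      have h3 : dg (ctr u v ∘ src) (ctr u v ∘ dst) u + 2 ≤ dg src dst u + dg src dst v :=
        Ord.dg_ctr_u src dst e hne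
      by_cases h4 : 3 ≤ dg src dst u
      · exact ⟨u, Or.inl rfl, fun _ => h4⟩
      · exact ⟨v, Or.inr rfl, fun _ => by omega⟩
    have hcw : ctr u v w = u := by
      rcases hw with rfl | rfl
      · exact ctr_u _ _ hne
      · exact ctr_v _ _
    refine card_le_card_of_injOn (fun x => if x = u then w else x) ?_ ?_
    · intro x hx
      obtain ⟨hx1, hx2⟩ := mem_filter.1 (mem_coe.1 hx)
      refine mem_coe.2 (mem_filter.2 ?_)
      by_cases hxu : x = u
      · simp only [hxu, if_true]
        refine ⟨?_, hwd (hxu ▸ hx2)⟩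
        rw [mem_pre, hcw]
        exact hxu ▸ hx1
      · simp only [hxu, if_false]
        refine ⟨?_, hx2.trans (Ord.dg_ctr_other src dst hxu)⟩
        have h5 : x ≠ v := fun h => hvA A hA (h ▸ hx1)
        rw [mem_pre, ctr_of_ne h5]
        exact hx1
    · intro x hx y hy hxy
      obtain ⟨hx1, _⟩ := mem_filter.1 (mem_coe.1 hx)
      obtain ⟨hy1, _⟩ := mem_filter.1 (mem_coe.1 hy)
      have hx2 : x ≠ v := fun h => hvA A hA (h ▸ hx1)
      have hy2 : y ≠ v := fun h => hvA A hA (h ▸ hy1)
      have key : ∀ z : V, z ≠ u → z ≠ v → w ≠ z := by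
        intro z h1 h2 h3
        rcases hw with h4 | h4
        · exact h1 (h3.symm.trans h4)
        · exact h2 (h3.symm.trans h4)
      simp only at hxy
      by_cases hxu : x = u <;> by_cases hyu : y = u
      · rw [hxu, hyu]
      · rw [if_pos hxu, if_neg hyu] at hxy
        exact absurd hxy (key y hyu hy2)
      · rw [if_neg hxu, if_pos hyu] at hxy
        exact absurd hxy.symm (key x hxu hx2)
      · rwa [if_neg hxu, if_neg hyu] at hxy
  · intro A' hA' B' hB' hne'
    obtain ⟨A, hA, rfl⟩ := mem_image.1 hA'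
    obtain ⟨B, hB, rfl⟩ := mem_image.1 hB'
    have h1 := hdis A hA B hB (fun h => hne' (by rw [h]))
    rw [disjoint_left]
    intro x hx hx'
    exact disjoint_left.1 h1 (mem_pre.1 hx) (mem_pre.1 hx')

/-- an edge is a connected set -/
theorem cn_pair {src dst : E → V} {x y : V} (h : Adj src dst x y) : Cn src dst {x, y} := by
  intro P hP hPn hPA
  obtain ⟨hne, e, he⟩ := h
  -- `P` is `{x}` or `{y}`
  have h1 : ∀ z ∈ P, z = x ∨ z = y := fun z hz => by
    have := hP hz
    rwa [mem_insert, mem_singleton] at this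
  have h2 : (x ∈ P ∧ y ∉ P) ∨ (y ∈ P ∧ x ∉ P) := by
    by_contra hcon
    push Not at hcon
    apply hPA
    refine Subset.antisymm hP ?_
    obtain ⟨z, hz⟩ := hPn
    intro w hw
    rw [mem_insert, mem_singleton] at hw
    rcases h1 z hz with rfl | rfl
    · rcases hw with rfl | rfl
      · exact hz
      · exact hcon.1 hz
    · rcases hw with rfl | rfl
      · exact hcon.2 hz
      · exact hz
  have hx : x ∈ ({x, y} : Finset V) := mem_insert_self _ _
  have hy : y ∈ ({x, y} : Finset V) := mem_insert_of_mem (mem_singleton_self _)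
  refine ⟨e, ?_⟩
  rcases h2 with ⟨h3, h4⟩ | ⟨h3, h4⟩ <;> rcases he with ⟨h5, h6⟩ | ⟨h5, h6⟩ <;> rw [h5, h6]
  · exact Or.inl ⟨h3, mem_sdiff.2 ⟨hy, h4⟩⟩
  · exact Or.inr ⟨h3, mem_sdiff.2 ⟨hy, h4⟩⟩
  · exact Or.inr ⟨h3, mem_sdiff.2 ⟨hx, h4⟩⟩
  · exact Or.inl ⟨h3, mem_sdiff.2 ⟨hx, h4⟩⟩

/-- **Main step.** -/
theorem flow_of_ClT (hc : St_contract) (hE : Edge62') (src dst : E → V) (hcl : ClT src dst)
    (hbr : Br src dst ∅ ∅) : FlowOn src dst ∅ ∅ := by
  classical
  by_contra hn
  obtain ⟨s, d, hT, hM⟩ := exists_minC ccT src dst hcl hbr hn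
  have h3 := threeC hc hM
  have hgi := girthC hc hM
  have hP : NoPar s d := fun e e' x y hxy h h' => no_par hc hM hxy h h'
  by_cases hl : ∀ e, s e = d e
  · exact hM.nf (flow_of_loops hl)
  push Not at hl
  obtain ⟨e, he⟩ := hl
  let G : SimpleGraph V :=
    { Adj := Adj s d
      symm := ⟨fun a b h => GiAux.adj_symm h⟩
      loopless := ⟨fun a h => h.1 rfl⟩ }
  have hG : ∀ a b, G.Adj a b ↔ Adj s d a b := fun a b => Iff.rfl
  have hxy : G.Adj (s e) (d e) := ⟨he, e, Or.inl ⟨rfl, rfl⟩⟩
  have hn126 : 126 ≤ (Ni G).card := by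
    have h1 := Pool.Agent.Y335.FL.moore V (Adj s d) (fun a b h => GiAux.adj_symm h)
      (fun a h => h.1 rfl) hgi h3 ⟨s e, d e, hxy⟩
    refine h1.trans (card_le_card ?_)
    intro v hv
    rw [mem_filter] at hv
    unfold Ni
    exact mem_filter.2 ⟨mem_univ _, hv.2⟩
  have hNi : ∀ x y, G.Adj x y → y ∈ Ni G := by
    intro x y h
    unfold Ni
    exact mem_filter.2 ⟨mem_univ _, x, h.symm⟩
  obtain ⟨U, m, hUT, hU, hm⟩ := H168DD.tutte_berge G (Ni G) ((Ni G).card - 126)
    ⟨(Ni G).card - 63, by omega⟩ (by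
      intro A F hA hodd hdis hsub hclo
      exact family hP hgi h3 hE G hG he A F hA hodd hdis hsub
        (fun O hO x hx y h => hclo O hO x hx y (hNi x y h) h) hn126)
  -- one vertex of each edge
  let ι := Fintype.equivFin V
  set P := (Ni G \ U).filter (fun x => ι x < ι (m x)) with hPd
  have hcov : Ni G \ U ⊆ P ∪ P.image m := by
    intro x hx
    obtain ⟨h1, h2, h3⟩ := hm x hx
    rcases lt_trichotomy (ι x) (ι (m x)) with h | h | h
    · exact mem_union_left _ (mem_filter.2 ⟨hx, h⟩)
    · exact absurd (ι.injective h) h3.ne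
    · apply mem_union_right
      refine mem_image.2 ⟨m x, mem_filter.2 ⟨h1, ?_⟩, h2⟩
      rw [h2]
      exact h
  have hPc : 63 ≤ P.card := by
    have h1 := card_le_card hcov
    have h2 := card_union_le P (P.image m)
    have h3 : (P.image m).card ≤ P.card := card_image_le
    have h4 := card_sdiff_add_card_eq_card hUT
    omega
  have hPm : ∀ x ∈ P, m (m x) = x ∧ G.Adj x (m x) ∧ ι x < ι (m x) := fun x hx =>
    ⟨(hm x (mem_filter.1 hx).1).2.1, (hm x (mem_filter.1 hx).1).2.2, (mem_filter.1 hx).2⟩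
  have hdis : ∀ x ∈ P, ∀ y ∈ P, x ≠ y → Disjoint ({x, m x} : Finset V) {y, m y} := by
    intro x hx y hy hxy
    obtain ⟨a1, a2, a3⟩ := hPm x hx
    obtain ⟨b1, b2, b3⟩ := hPm y hy
    have c1 : x ≠ m y := by
      intro h
      rw [h, b1] at a3
      exact absurd (lt_trans a3 b3) (lt_irrefl _)
    have c2 : m x ≠ y := by
      intro h
      rw [← h, a1] at b3
      exact absurd (lt_trans a3 b3) (lt_irrefl _)
    have c3 : m x ≠ m y := by
      intro h
      apply hxy
      rw [← a1, h, b1]
    rw [disjoint_left]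
    intro z hz hz'
    rw [mem_insert, mem_singleton] at hz hz'
    rcases hz with rfl | rfl <;> rcases hz' with h | h
    · exact hxy h
    · exact c1 h
    · exact c2 h
    · exact c3 h
  have hinj : Set.InjOn (fun x => ({x, m x} : Finset V)) (P : Set V) := by
    intro x hx y hy hxy
    by_contra hne
    have h1 := hdis x hx y hy hne
    have h2 : x ∈ ({x, m x} : Finset V) := mem_insert_self _ _
    have hxy' : ({x, m x} : Finset V) = {y, m y} := hxy
    exact disjoint_left.1 h1 h2 (hxy' ▸ h2)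
  have h62 := hT (P.image (fun x => ({x, m x} : Finset V))) (by
    intro A hA
    obtain ⟨x, hx, rfl⟩ := mem_image.1 hA
    obtain ⟨a1, a2, a3⟩ := hPm x hx
    refine ⟨cn_pair a2, ?_⟩
    have h5 : (({x, m x} : Finset V).filter (fun x => 3 ≤ dg s d x)) = {x, m x} := by
      refine filter_true_of_mem ?_
      intro z hz
      rw [mem_insert, mem_singleton] at hz
      rcases hz with rfl | rfl
      · exact Ord.three_dg h3 a2
      · exact Ord.three_dg h3 a2.symm
    rw [h5, card_pair a2.ne]) (by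
    intro A hA B hB hAB
    obtain ⟨x, hx, rfl⟩ := mem_image.1 hA
    obtain ⟨y, hy, rfl⟩ := mem_image.1 hB
    exact hdis x hx y hy (fun h => hAB (by rw [h])))
  rw [card_image_of_injOn hinj] at h62
  omega

end Pool.Agent.K4H76.FL
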