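import Pool.Agent.Y335.FL.Ahl
import Pool.Agent.Y335.FL.Order

/-!
# Sparse sets in graphs with girth at least twelve

A set of `c` vertices, `1 ≤ c ≤ 121`, in a graph with girth at least twelve has at most
`3 (c - 1) / 2` inner edges (from the Moore bound for irregular graphs of Alon, Hoory and Linial).
-/

set_option autoImplicit false
set_option linter.unusedSectionVars false

namespace Pool.Agent.K4H76.FL

open Finset Pool.Agent.TH676.Z Pool.Agent.Y335.FL

/-- the numerical part -/
theorem num121 (V : Type) [Fintype V] [DecidableEq V] [Nonempty V] (G : SimpleGraph V)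
    [DecidableRel G.Adj] (hdeg : ∀ v, 2 ≤ G.degree v) (hg : Girth G.Adj 12)
    (hn : Fintype.card V ≤ 121) (hm : 3 * Fintype.card V ≤ 2 * G.edgeFinset.card + 2) : False := by
  have h1 := ahl V G hdeg hg
  have hnpos : 0 < Fintype.card V := Fintype.card_pos
  obtain ⟨n, hn'⟩ : ∃ n, n = Fintype.card V := ⟨_, rfl⟩
  obtain ⟨m, hm'⟩ : ∃ m, m = G.edgeFinset.card := ⟨_, rfl⟩
  rw [← hn'] at h1 hn hm hnpos
  rw [← hm'] at h1 hm
  have hn0 : (0 : ℝ) < n := by exact_mod_cast hnpos
  have key : ∀ y : ℝ, 0 ≤ y → y * n ≤ 2 * m - n → 2 * ∑ i ∈ range 6, y ^ i ≤ n := by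
    intro y hy hyn
    refine le_trans ?_ h1
    refine mul_le_mul_of_nonneg_left (Finset.sum_le_sum fun i _ => ?_) (by norm_num)
    refine pow_le_pow_left₀ hy ?_ i
    rw [le_sub_iff_add_le, le_div_iff₀ hn0]
    linarith
  have hm1 : 3 * (n : ℝ) ≤ 2 * m + 2 := by exact_mod_cast hm
  have hn1 : (1 : ℝ) ≤ n := by exact_mod_cast hnpos
  have h2 := key (2 - 2 / n) (by
    rw [sub_nonneg, div_le_iff₀ hn0]
    linarith) (by
    rw [sub_mul, div_mul_cancel₀ _ hn0.ne']
    linarith)
  clear key h1 hn' hm' hm1 hm hn0 hn1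
  interval_cases n <;> norm_num [Finset.sum_range_succ] at h2

/-- twice the number of the inner edges -/
def DD {V : Type} (Ad : V → V → Prop) [DecidableRel Ad] (X : Finset V) : ℕ :=
  ∑ x ∈ X, (X.filter (Ad x)).card

theorem DD_erase {V : Type} [DecidableEq V] (Ad : V → V → Prop) [DecidableRel Ad]
    (hs : ∀ a b, Ad a b → Ad b a) (hi : ∀ a, ¬ Ad a a) (X : Finset V) {v : V} (hv : v ∈ X) :
    DD Ad X = DD Ad (X.erase v) + 2 * (X.filter (Ad v)).card := by
  unfold DD
  rw [← add_sum_erase X _ hv]
  have h1 : ∀ x ∈ X.erase v, (X.filter (Ad x)).card =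
      ((X.erase v).filter (Ad x)).card + if Ad x v then 1 else 0 := by
    intro x hx
    have h2 : X = insert v (X.erase v) := (insert_erase hv).symm
    conv_lhs => rw [h2]
    rw [filter_insert]
    split_ifs with h3
    · rw [card_insert_of_notMem]
      simp
    · simp
  rw [sum_congr rfl h1, sum_add_distrib]
  have h4 : ∑ x ∈ X.erase v, (if Ad x v then 1 else 0) = (X.filter (Ad v)).card := by
    rw [← card_filter]
    congr 1
    ext x
    simp only [mem_filter, mem_erase]
    constructor
    · rintro ⟨⟨_, h5⟩, h6⟩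
      exact ⟨h5, hs _ _ h6⟩
    · rintro ⟨h5, h6⟩
      exact ⟨⟨fun h => hi v (h ▸ h6), h5⟩, hs _ _ h6⟩
  rw [h4]
  ring

/-- **sparse sets** -/
theorem sparse {V : Type} [DecidableEq V] (Ad : V → V → Prop) [DecidableRel Ad]
    (hs : ∀ a b, Ad a b → Ad b a) (hi : ∀ a, ¬ Ad a a) (hg : Girth Ad 12) :
    ∀ (n : ℕ) (X : Finset V), X.card = n → X.Nonempty → n ≤ 121 →
      DD Ad X + 3 ≤ 3 * X.card := by
  classical
  intro n
  induction n with
  | zero =>
    intro X hX hne
    exact absurd (card_eq_zero.1 hX) hne.ne_empty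
  | succ n ih =>
    intro X hX hne hn
    by_contra hcon
    push Not at hcon
    by_cases hmin : ∃ v ∈ X, (X.filter (Ad v)).card ≤ 1
    · obtain ⟨v, hv, hv1⟩ := hmin
      have h1 := DD_erase Ad hs hi X hv
      have h2 : (X.erase v).card = n := by
        rw [card_erase_of_mem hv, hX]
        rfl
      rcases (X.erase v).eq_empty_or_nonempty with h3 | h3
      · have h4 : DD Ad (X.erase v) = 0 := by
          rw [h3]
          rfl
        have h5 : (X.filter (Ad v)).card = 0 := by
          rw [card_eq_zero, eq_empty_iff_forall_notMem]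
          intro x hx
          obtain ⟨hx1, hx2⟩ := mem_filter.1 hx
          have h6 : x ≠ v := by
            rintro rfl
            exact hi _ hx2
          have h7 : x ∈ X.erase v := mem_erase.2 ⟨h6, hx1⟩
          rw [h3] at h7
          exact notMem_empty _ h7
        have h8 : 1 ≤ X.card := card_pos.2 hne
        omega
      · have h4 := ih (X.erase v) h2 h3 (by omega)
        omega
    · push Not at hmin
      let G : SimpleGraph X :=
        { Adj := fun a b => Ad a b
          symm := ⟨fun a b h => hs _ _ h⟩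
          loopless := ⟨fun a h => hi _ h⟩ }
      have : Nonempty X := ⟨⟨hne.choose, hne.choose_spec⟩⟩
      have hdeg : ∀ v, G.degree v = (X.filter (Ad v)).card := by
        intro v
        rw [← SimpleGraph.card_neighborFinset_eq_degree]
        refine card_bij (fun a _ => a.1) ?_ ?_ ?_
        · intro a ha
          rw [SimpleGraph.mem_neighborFinset] at ha
          exact mem_filter.2 ⟨a.2, ha⟩
        · intro a _ b _ h
          exact Subtype.ext h
        · intro b hb
          obtain ⟨hb1, hb2⟩ := mem_filter.1 hb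
          exact ⟨⟨b, hb1⟩, by rw [SimpleGraph.mem_neighborFinset]; exact hb2, rfl⟩
      refine num121 X G ?_ ?_ ?_ ?_
      · intro v
        rw [hdeg]
        exact hmin v.1 v.2
      · intro k hk w hw hA
        exact hg k hk (fun i => (w i).1) (fun i j hij => hw (Subtype.ext hij)) (fun i => hA i)
      · rw [Fintype.card_coe]
        omega
      · rw [Fintype.card_coe]
        have h1 := G.sum_degrees_eq_twice_card_edges
        have h2 : ∑ v, G.degree v = DD Ad X := by
          unfold DD
          rw [← sum_coe_sort X (fun x => (X.filter (Ad x)).card)]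
          exact sum_congr rfl fun v _ => hdeg v
        rw [h2] at h1
        omega

end Pool.Agent.K4H76.FL
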